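import Pool.Agent.NLG.UniS

/-!
# MP_e1729b_nt: a finiteness theorem for all exponents at once

For every `ε > 0` only finitely many solutions `(x, y, m, n)` of the Nagell-Ljunggren equation are such that
`x` has, for some odd prime factor `q` of `m`, a divisor `P ≥ x^(1/q+ε)` without prime factors `q` and
without prime factors `p ≡ 1` modulo `q`, that is, `gcd (q, P φ(P)) = 1`.

Proof: for `q ≥ Q(ε)` there is no solution (Pool/Agent/NL/LargeExp.lean); for a fixed `q` the divisor `P`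
divides `gcd (x, y^(m/q) - 1) ≤ x^(1/q+o(1))` (hand-in SharpGcd), so `x` is bounded, and for a fixed `x`
Thue's argument bounds `n`.
-/

namespace Pool.Agent.Results.MP_e1729b_nt.AllExponents

theorem result : ∀ ε : ℝ, 0 < ε →
    {t : ℕ × ℕ × ℕ × ℕ | 1 < t.1 ∧ 1 < t.2.1 ∧ 1 < t.2.2.1 ∧ 2 < t.2.2.2 ∧
      t.2.1 ^ t.2.2.1 * (t.1 - 1) = t.1 ^ t.2.2.2 - 1 ∧
      ∃ q P : ℕ, q.Prime ∧ q ≠ 2 ∧ q ∣ t.2.2.1 ∧ P ∣ t.1 ∧ Nat.Coprime q (P * P.totient) ∧
        (t.1 : ℝ) ^ (1 / (q : ℝ) + ε) ≤ (P : ℝ)}.Finite := by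
  intro ε hε
  exact Pool.Agent.NLG.uni_finite2 hε

end Pool.Agent.Results.MP_e1729b_nt.AllExponents
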