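import Pool.Agent.NLS.VFin

/-!
MP_e1729b_nt: the large prime factors of the exponents of the solutions of the Nagell-Ljunggren equation.
-/

namespace Pool.Agent.Results.MP_e1729b_nt.LargePrimeFactors

/-- For every `ε > 0` there is `n0` such that for all `n ≥ n0`: if `P` is a finite nonempty set of primes, each of which divides
the exponent `m` of some solution `x, y > 1` of `y ^ m (x - 1) = x ^ n - 1`, then the smallest element of `P` is smaller than
`n ^ (1/2 + 1/(4 |P|) + ε)`. -/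
theorem result (ε : ℝ) (hε : 0 < ε) : ∃ n0 : ℕ, ∀ n : ℕ, n0 ≤ n → ∀ P : Finset ℕ, P.Nonempty →
    (∀ q ∈ P, q.Prime ∧ ∃ m x y : ℕ, q ∣ m ∧ 1 < x ∧ 1 < y ∧ y ^ m * (x - 1) = x ^ n - 1) →
    ∃ q ∈ P, (q : ℝ) < (n : ℝ) ^ (1 / 2 + 1 / (4 * (P.card : ℝ)) + ε) :=
  Pool.Agent.NLS.few_all ε hε

end Pool.Agent.Results.MP_e1729b_nt.LargePrimeFactors
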